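import Mathlib

/-!
# Parabolic resolvents in one space dimension: definitions

Points of the plane are `z = (x, t) = (z 0, z 1)`. The Fourier transform is Mathlib's unitary
Fourier transform on `L²(ℝ²)` (kernel `exp (-2 π i ⟨z, ξ⟩)`), so the variable dual to `t` in the
convention `∂_t ↔ i τ` is `τ = 2 π ξ 1`. A multiplier in `t` alone is the multiplier on the plane
whose symbol only depends on `τ`.
-/

namespace Pool.Agent.H962Z.Par

open MeasureTheory
open scoped NNReal ENNReal SchwartzMap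

/-- The plane of the points `(x, t) = (z 0, z 1)`. -/
abbrev Plane : Type := EuclideanSpace ℝ (Fin 2)

/-- Lebesgue measure on the plane. -/
noncomputable abbrev vol : Measure Plane := volume

/-- `L²(ℝ²)`, complex valued. -/
abbrev L2 : Type := Lp ℂ 2 vol

/-- The function (a representative of the class) of an element of `L²`. -/
noncomputable abbrev fn (u : L2) : Plane → ℂ := u

/-- The Fourier transform on `L²(ℝ²)`. -/
noncomputable abbrev FT (u : L2) : L2 :=
  @FourierTransform.fourier L2 L2 (Lp.instFourierTransform (E := Plane) (F := ℂ)) u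

/-- The tempered distribution of an element of `L²`. -/
noncomputable abbrev distr (u : L2) : 𝓢'(Plane, ℂ) := Lp.toTemperedDistribution u

/-- `w = 𝓕⁻¹ (m 𝓕 u)`: the Fourier transform of `w` is `m` times the one of `u`. -/
def IsMult (m : Plane → ℂ) (u w : L2) : Prop :=
  ∀ᵐ ξ ∂vol, fn (FT w) ξ = m ξ * fn (FT u) ξ

/-- `w = ∂_x u` in the sense of (tempered) distributions. -/
def IsDx (u w : L2) : Prop :=
  LineDeriv.lineDerivOp (EuclideanSpace.single (0 : Fin 2) (1 : ℝ) : Plane) (distr u) = distr w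

/-- `w = D_t^{1/2} u`, symbol `|τ|^{1/2}`. -/
def IsDhalf (u w : L2) : Prop :=
  IsMult (fun ξ => (Real.sqrt |2 * Real.pi * ξ 1| : ℂ)) u w

/-- `w = H_t u`, symbol `i τ / |τ|`. -/
def IsHilbert (u w : L2) : Prop :=
  IsMult (fun ξ => Complex.I * ((2 * Real.pi * ξ 1) / |2 * Real.pi * ξ 1| : ℝ)) u w

/-- `(u, g)` lies in the graph of the maximal restriction to `L²` of the operator
`ℋ = ∂_t - ∂_x (a ∂_x)`: `u` is in the energy space `E` and `ℋ(u)(v) = ⟨g, v⟩` for all `v ∈ E`. -/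
def Graph (a : Plane → ℂ) (u g : L2) : Prop :=
  ∃ ux ud uh : L2, IsDx u ux ∧ IsDhalf u ud ∧ IsHilbert ud uh ∧
    ∀ v vx vd : L2, IsDx v vx → IsDhalf v vd →
      ∫ z, (fn uh z * star (fn vd z) + a z * fn ux z * star (fn vx z)) ∂vol =
        ∫ z, fn g z * star (fn v z) ∂vol

/-- The family `(1 + λ² ℋ)⁻¹`, `λ > 0`, is `L^p` bounded: there is `C` such that
`‖u‖_p ≤ C ‖f‖_p` whenever `f ∈ L² ∩ L^p` and `(1 + λ² ℋ) u = f`. -/
def LpBounded (a : Plane → ℂ) (p : ℝ) : Prop :=
  ∃ C : ℝ≥0, ∀ lam : ℝ, 0 < lam → ∀ f u g : L2, MemLp (fn f) (ENNReal.ofReal p) vol →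
    Graph a u g → (∀ᵐ z ∂vol, fn u z + (lam : ℂ) ^ 2 * fn g z = fn f z) →
      eLpNorm (fn u) (ENNReal.ofReal p) vol ≤ C * eLpNorm (fn f) (ENNReal.ofReal p) vol

/-- The lower critical exponent `p_-(ℋ)`. -/
noncomputable def pMinus (a : Plane → ℂ) : ℝ :=
  sInf {p : ℝ | p ∈ Set.Icc (1 : ℝ) 2 ∧ LpBounded a p}

end Pool.Agent.H962Z.Par
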