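import Pool.Agent.H962Z.Par.Defs

namespace Pool.Agent.H962Z.Par

open MeasureTheory FourierTransform LineDeriv
open scoped NNReal ENNReal SchwartzMap Real ComplexConjugate ContDiff

def IsD (e : Plane) (u w : L2) : Prop :=
  ∂_{e} (Lp.toTemperedDistribution u : 𝓢'(Plane, ℂ)) = Lp.toTemperedDistribution w

lemma integrable_mul_L2 {f g : Plane → ℂ} (hf : MemLp f 2 volume) (hg : MemLp g 2 volume) :
    Integrable (fun z => f z * g z) volume :=
  MemLp.integrable_mul hf hg

lemma isD_of_hasLineDerivAt (e : Plane) {f f' : Plane → ℂ} (hf : MemLp f 2 volume)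
    (hf' : MemLp f' 2 volume) (h : ∀ z, HasLineDerivAt ℝ f (f' z) z e) :
    IsD e (hf.toLp f) (hf'.toLp f') := by
  unfold IsD
  ext g
  rw [TemperedDistribution.lineDerivOp_apply_apply]
  simp only [Lp.toTemperedDistribution_apply]
  have h1 : ∫ x, (-∂_{e} g) x • (hf.toLp f : L2) x = ∫ x, (-∂_{e} g) x * f x := by
    apply integral_congr_ae
    filter_upwards [hf.coeFn_toLp] with x hx
    rw [hx, smul_eq_mul]
  have h2 : ∫ x, g x • (hf'.toLp f' : L2) x = ∫ x, g x * f' x := by
    apply integral_congr_ae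
    filter_upwards [hf'.coeFn_toLp] with x hx
    rw [hx, smul_eq_mul]
  rw [h1, h2]
  have key := integral_bilinear_hasLineDerivAt_right_eq_neg_left_of_integrable
    (μ := (volume : Measure Plane)) (f := g) (f' := (∂_{e} g : 𝓢(Plane, ℂ))) (g := f) (g' := f')
    (v := e) (B := ContinuousLinearMap.mul ℝ ℂ)
    (integrable_mul_L2 ((∂_{e} g : 𝓢(Plane, ℂ)).memLp 2) hf)
    (integrable_mul_L2 (g.memLp 2) hf') (integrable_mul_L2 (g.memLp 2) hf)
    (fun x _ => by
      rw [SchwartzMap.lineDerivOp_apply_eq_fderiv]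
      exact (g.hasFDerivAt x).hasLineDerivAt e)
    (fun x _ => h x)
  simp only [ContinuousLinearMap.mul_apply'] at key
  rw [key, ← integral_neg]
  congr 1
  ext x
  simp

lemma isMult_of_isD {e : Plane} {u w : L2} (h : IsD e u w) :
    IsMult (fun ξ => 2 * π * Complex.I * (inner ℝ ξ e : ℝ)) u w := by
  unfold IsD at h
  have h1 : 𝓕 (∂_{e} (Lp.toTemperedDistribution u : 𝓢'(Plane, ℂ))) =
      𝓕 (Lp.toTemperedDistribution w : 𝓢'(Plane, ℂ)) := by rw [h]
  rw [TemperedDistribution.fourier_lineDerivOp_eq, Lp.fourier_toTemperedDistribution_eq,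
    Lp.fourier_toTemperedDistribution_eq] at h1
  unfold IsMult
  have hc : Continuous (fun ξ : Plane => 2 * π * Complex.I * (inner ℝ ξ e : ℝ)) := by fun_prop
  apply ae_eq_of_integral_contDiff_smul_eq
  · exact (Lp.memLp _).locallyIntegrable (by norm_num)
  · exact LocallyIntegrable.continuous_mul hc ((Lp.memLp _).locallyIntegrable (by norm_num))
  intro g hg hgs
  have hg₁ : HasCompactSupport (Complex.ofRealCLM ∘ g) := hgs.comp_left rfl
  have hg₂ : ContDiff ℝ ∞ (Complex.ofRealCLM ∘ g) := by fun_prop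
  have h2 := congrArg (fun T : 𝓢'(Plane, ℂ) => T (hg₁.toSchwartzMap hg₂)) h1
  have ht : (fun x : Plane => ((inner ℝ x e : ℝ) : ℂ)).HasTemperateGrowth := by fun_prop
  simp only [Lp.toTemperedDistribution_apply] at h2
  change (2 * π * Complex.I) • (TemperedDistribution.smulLeftCLM ℂ _ _ (hg₁.toSchwartzMap hg₂)) = _ at h2
  rw [TemperedDistribution.smulLeftCLM_apply_apply, Lp.toTemperedDistribution_apply,
    ← integral_smul] at h2
  have e1 : ∫ x, g x • fn (FT w) x ∂vol =
      ∫ x, (hg₁.toSchwartzMap hg₂) x • (𝓕 w : L2) x := by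
    congr 1
  rw [e1, ← h2]
  congr 1
  ext x
  rw [SchwartzMap.smulLeftCLM_apply_apply ht]
  change _ = g x • (2 * ↑π * Complex.I * ↑(inner ℝ x e) * (𝓕 u : L2) x)
  have : (hg₁.toSchwartzMap hg₂) x = (g x : ℂ) := rfl
  rw [this]
  simp only [smul_eq_mul, Complex.real_smul]
  ring

lemma plancherel (f g : L2) :
    ∫ z, f z * conj (g z) = ∫ ξ, FT f ξ * conj (FT g ξ) := by
  have h := (Lp.fourierTransformₗᵢ Plane ℂ).inner_map_map g f
  rw [L2.inner_def, L2.inner_def] at h
  simp only [RCLike.inner_apply] at h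
  exact h.symm

lemma exists_isMult (m : Plane → ℂ) (u : L2) (h : MemLp (fun ξ => m ξ * FT u ξ) 2 volume) :
    ∃ w : L2, IsMult m u w := by
  refine ⟨(Lp.fourierTransformₗᵢ Plane ℂ).symm (h.toLp _), ?_⟩
  unfold IsMult
  have : FT ((Lp.fourierTransformₗᵢ Plane ℂ).symm (h.toLp _)) = h.toLp _ :=
    LinearIsometryEquiv.apply_symm_apply _ _
  rw [this]
  exact h.coeFn_toLp

noncomputable def eX : Plane := EuclideanSpace.single (0 : Fin 2) (1 : ℝ)
noncomputable def eT : Plane := EuclideanSpace.single (1 : Fin 2) (1 : ℝ)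

lemma inner_eX (ξ : Plane) : inner ℝ ξ eX = ξ 0 := by
  simp [eX, EuclideanSpace.inner_single_right]

lemma inner_eT (ξ : Plane) : inner ℝ ξ eT = ξ 1 := by
  simp [eT, EuclideanSpace.inner_single_right]

lemma integrable_mul_conj (f g : L2) : Integrable (fun z => f z * conj (g z)) volume := by
  apply integrable_mul_L2 (Lp.memLp f)
  exact (Lp.memLp g).star

lemma integrable_a_mul_conj {a : Plane → ℂ} (ha : Measurable a) {M : ℝ} (hM : ∀ z, ‖a z‖ ≤ M)
    (f g : L2) : Integrable (fun z => a z * f z * conj (g z)) volume := by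
  have := (integrable_mul_conj f g).bdd_mul (c := M) ha.aestronglyMeasurable
    (Filter.Eventually.of_forall hM)
  simpa [mul_assoc] using this

lemma exists_dhalf {u ut : L2} (h : IsD eT u ut) : ∃ ud : L2, IsDhalf u ud := by
  apply exists_isMult
  have h1 := isMult_of_isD h
  have hm : MemLp (fun ξ => ‖FT u ξ‖ + ‖FT ut ξ‖) 2 volume :=
    (Lp.memLp (FT u)).norm.add (Lp.memLp (FT ut)).norm
  refine hm.of_le ?_ ?_
  · apply AEStronglyMeasurable.mul _ (Lp.aestronglyMeasurable _)
    apply Continuous.aestronglyMeasurable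
    fun_prop
  · filter_upwards [h1] with ξ hξ
    rw [inner_eT] at hξ
    simp only [fn] at hξ
    rw [Real.norm_of_nonneg (by positivity), hξ, norm_mul, norm_mul (2 * π * Complex.I * _)]
    have e : ‖2 * π * Complex.I * ((ξ 1 : ℝ) : ℂ)‖ = |2 * π * ξ 1| := by
      rw [← Real.norm_eq_abs, ← Complex.norm_real]
      push_cast
      simp
    rw [e, Complex.norm_real, Real.norm_of_nonneg (Real.sqrt_nonneg _)]
    have h2 : Real.sqrt |2 * π * ξ 1| ≤ 1 + |2 * π * ξ 1| := by
      rw [Real.sqrt_le_left (by positivity)]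
      nlinarith [abs_nonneg (2 * π * ξ 1)]
    nlinarith [norm_nonneg (FT u ξ)]

lemma exists_hilbert (u : L2) : ∃ w : L2, IsHilbert u w := by
  apply exists_isMult
  refine (Lp.memLp (FT u)).of_le ?_ ?_
  · apply AEStronglyMeasurable.mul _ (Lp.aestronglyMeasurable _)
    apply Measurable.aestronglyMeasurable
    fun_prop
  · filter_upwards with ξ
    rw [norm_mul, norm_mul, Complex.norm_I, Complex.norm_real, norm_div, Real.norm_eq_abs,
      Real.norm_eq_abs, abs_abs, one_mul]
    have : |2 * π * ξ 1| / |2 * π * ξ 1| ≤ 1 := div_self_le_one _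
    nlinarith [norm_nonneg (FT u ξ)]

lemma sign_sqrt (r : ℝ) :
    ((r / |r| : ℝ) : ℂ) * (Real.sqrt |r| : ℂ) * (Real.sqrt |r| : ℂ) = r := by
  rw [mul_assoc, ← Complex.ofReal_mul, Real.mul_self_sqrt (abs_nonneg r), ← Complex.ofReal_mul]
  by_cases h : r = 0
  · simp [h]
  · rw [div_mul_cancel₀ _ (abs_ne_zero.2 h)]

/-- A function with `u, ∂_t u, ∂_x u, a ∂_x u, ∂_x (a ∂_x u) ∈ L²` is in the domain. -/
lemma graph_of_derivs {a : Plane → ℂ} {u ut ux φ φx : L2} (ht : IsD eT u ut) (hx : IsD eX u ux)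
    (hφ : IsD eX φ φx) (ha : ∀ᵐ z, a z * ux z = φ z) : Graph a u (ut - φx) := by
  obtain ⟨ud, hud⟩ := exists_dhalf ht
  obtain ⟨uh, huh⟩ := exists_hilbert ud
  refine ⟨ux, ud, uh, hx, hud, huh, ?_⟩
  intro v vx vd hvx hvd
  change ∫ z, (uh z * conj (vd z) + a z * ux z * conj (vx z)) = ∫ z, (ut - φx) z * conj (v z)
  have e1 : ∫ z, (uh z * conj (vd z) + a z * ux z * conj (vx z)) =
      ∫ z, (uh z * conj (vd z) + φ z * conj (vx z)) := by
    apply integral_congr_ae
    filter_upwards [ha] with z hz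
    rw [hz]
  have e2 : ∫ z, (ut - φx) z * conj (v z) = ∫ z, (ut z * conj (v z) - φx z * conj (v z)) := by
    apply integral_congr_ae
    filter_upwards [Lp.coeFn_sub ut φx] with z hz
    rw [hz, Pi.sub_apply, sub_mul]
  rw [e1, e2, integral_add (integrable_mul_conj _ _) (integrable_mul_conj _ _),
    integral_sub (integrable_mul_conj _ _) (integrable_mul_conj _ _), plancherel uh, plancherel φ,
    plancherel ut, plancherel φx, sub_eq_add_neg, ← integral_neg]
  congr 1
  · apply integral_congr_ae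
    filter_upwards [hud, huh, hvd, isMult_of_isD ht] with ξ h1 h2 h3 h4
    rw [inner_eT] at h4
    simp only [fn] at h1 h2 h3 h4
    rw [h2, h1, h3, h4, map_mul, Complex.conj_ofReal]
    have := sign_sqrt (2 * π * ξ 1)
    push_cast at this ⊢
    linear_combination (Complex.I * FT u ξ * conj (FT v ξ)) * this
  · apply integral_congr_ae
    filter_upwards [isMult_of_isD hφ, isMult_of_isD (e := eX) hvx] with ξ h1 h2
    simp only [fn] at h1 h2
    rw [h1, h2]
    simp only [map_mul, Complex.conj_ofReal, Complex.conj_I, map_ofNat]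
    ring

/-- Accretivity. -/
lemma re_graph_nonneg {a : Plane → ℂ} (ha : Measurable a) {M : ℝ} (hM : ∀ z, ‖a z‖ ≤ M)
    (hre : ∀ z, 0 ≤ (a z).re) {u g : L2} (h : Graph a u g) :
    0 ≤ (∫ z, g z * conj (u z)).re := by
  obtain ⟨ux, ud, uh, hx, hd, hh, H⟩ := h
  have H' : ∫ z, (uh z * conj (ud z) + a z * ux z * conj (ux z)) = ∫ z, g z * conj (u z) :=
    H u ux ud hx hd
  rw [← H', integral_add (integrable_mul_conj _ _) (integrable_a_mul_conj ha hM _ _),
    Complex.add_re, plancherel uh]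
  apply add_nonneg
  · have := integral_re (𝕜 := ℂ) (integrable_mul_conj (FT uh) (FT ud))
    simp only [RCLike.re_to_complex] at this
    rw [← this]
    apply integral_nonneg_of_ae
    filter_upwards [hh] with ξ hξ
    simp only [fn] at hξ
    rw [hξ, mul_assoc, Complex.mul_conj, mul_assoc, ← Complex.ofReal_mul, Complex.re_mul_ofReal,
      Complex.I_re, zero_mul]
    exact le_rfl
  · have := integral_re (𝕜 := ℂ) (integrable_a_mul_conj ha hM ux ux)
    simp only [RCLike.re_to_complex] at this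
    rw [← this]
    apply integral_nonneg
    intro z
    simp only [mul_assoc, Complex.mul_conj, Pi.zero_apply]
    rw [Complex.re_mul_ofReal]
    exact mul_nonneg (hre z) (Complex.normSq_nonneg _)

lemma lpBounded_two {a : Plane → ℂ} (ha : Measurable a) {M : ℝ} (hM : ∀ z, ‖a z‖ ≤ M)
    (hre : ∀ z, 0 ≤ (a z).re) : LpBounded a 2 := by
  refine ⟨1, fun lam _ f u g _ hg hf' => ?_⟩
  have hf : u + ((lam : ℂ) ^ 2) • g = f := by
    apply Lp.ext
    filter_upwards [hf', Lp.coeFn_add u (((lam : ℂ) ^ 2) • g), Lp.coeFn_smul ((lam : ℂ) ^ 2) g]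
      with z h1 h2 h3
    rw [h2, Pi.add_apply, h3, Pi.smul_apply, smul_eq_mul]
    exact h1
  have h0 := re_graph_nonneg ha hM hre hg
  have h1 : inner ℂ u g = ∫ z, g z * conj (u z) := by
    rw [L2.inner_def]; simp only [RCLike.inner_apply]
  have h2 : ‖u‖ ≤ ‖f‖ := by
    rw [← hf]
    have h3 := norm_add_sq (𝕜 := ℂ) u (((lam : ℂ) ^ 2) • g)
    rw [inner_smul_right, h1, ← Complex.ofReal_pow, RCLike.re_to_complex,
      Complex.re_ofReal_mul] at h3
    rw [← Complex.ofReal_pow]
    have h4 : ‖u‖ ^ 2 ≤ ‖u + ((lam ^ 2 : ℝ) : ℂ) • g‖ ^ 2 := by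
      rw [h3]
      have : 0 ≤ lam ^ 2 * (∫ z, g z * conj (u z)).re := by positivity
      nlinarith [sq_nonneg ‖((lam ^ 2 : ℝ) : ℂ) • g‖]
    exact (pow_le_pow_iff_left₀ (norm_nonneg _) (norm_nonneg _) two_ne_zero).1 h4
  have e : ENNReal.ofReal 2 = 2 := by simp
  rw [e, ENNReal.coe_one, one_mul]
  rw [Lp.norm_def, Lp.norm_def] at h2
  exact (ENNReal.toReal_le_toReal (Lp.eLpNorm_ne_top u) (Lp.eLpNorm_ne_top f)).1 h2

end Pool.Agent.H962Z.Par
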