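import Pool.Agent.H962Z.Par.Sol

set_option linter.unusedSimpArgs false

namespace Pool.Agent.H962Z.Par

open MeasureTheory Filter Topology Set
open scoped ENNReal Real

lemma integrable_prod {g h : ℝ → ℝ} (hg : Integrable g) (hh : Integrable h) :
    Integrable (fun z : Plane => g (z 0) * h (z 1)) volume := by
  have h1 := Integrable.fintype_prod (f := ![g, h]) (μ := fun _ : Fin 2 => (volume : Measure ℝ))
    (fun i => by fin_cases i <;> simpa)
  have h2 := (PiLp.volume_preserving_ofLp (Fin 2)).integrable_comp_of_integrable h1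
  simpa [Function.comp_def, Fin.prod_univ_two] using h2

lemma integral_prod' (g h : ℝ → ℝ) :
    ∫ z : Plane, g (z 0) * h (z 1) = (∫ x, g x) * ∫ t, h t := by
  have h1 := integral_fintype_prod_volume_eq_prod (𝕜 := ℝ) (E := fun _ : Fin 2 => ℝ) ![g, h]
  have h2 := (PiLp.volume_preserving_ofLp (Fin 2)).integral_comp
    (MeasurableEquiv.toLp 2 (Fin 2 → ℝ)).symm.measurableEmbedding
    (fun x : Fin 2 → ℝ => ∏ i, ![g, h] i (x i))
  rw [h1] at h2
  simpa [Fin.prod_univ_two] using h2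

lemma ff_small {p : ℝ} (hp : 1 ≤ p) : ∃ K : ℝ, ∀ ε : ℝ, 0 < ε →
    eLpNorm (fun z : Plane => ff ε (z 0) (z 1)) (ENNReal.ofReal p) volume ≤
      ENNReal.ofReal (K * ε ^ (3 / (2 * p) - 29 / 20)) := by
  obtain ⟨K, h0, hK⟩ := ff_bound
  have hp0 : 0 < p := by linarith
  refine ⟨K * (Real.sqrt (2 * π)) ^ p⁻¹, fun ε hε => ?_⟩
  rw [(memLp_ff hε hp).eLpNorm_eq_integral_rpow_norm (by simp; linarith) (by simp),
    ENNReal.toReal_ofReal hp0.le]
  apply ENNReal.ofReal_le_ofReal
  set B : ℝ := K / ε * ε ^ (-(9 / 20) : ℝ) with hB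
  have hB0 : 0 ≤ B := by positivity
  have hg : Integrable (fun x : ℝ => Real.exp (-(1 / (2 * ε)) * x ^ 2)) :=
    integrable_exp_neg_mul_sq (by positivity)
  have hh : Integrable ((Icc ε (2 * ε)).indicator fun _ : ℝ => B ^ p) :=
    (integrable_indicator_iff measurableSet_Icc).2 (by simp)
  have h1 : ∫ z : Plane, ‖ff ε (z 0) (z 1)‖ ^ p ≤
      ∫ z : Plane, Real.exp (-(1 / (2 * ε)) * z 0 ^ 2) *
        ((Icc ε (2 * ε)).indicator fun _ : ℝ => B ^ p) (z 1) := by
    apply integral_mono_of_nonneg (Eventually.of_forall fun z => by positivity)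
      (integrable_prod hg hh)
    filter_upwards with z
    by_cases hz : z 1 ∈ Icc ε (2 * ε)
    · rw [indicator_of_mem hz]
      have ht0 : 0 < z 1 := hε.trans_le hz.1
      have e1 : Real.exp (-z 1) * Real.exp (-(z 0 ^ 2 / z 1)) ≤
          Real.exp (-(1 / (2 * ε)) * z 0 ^ 2) := by
        rw [← Real.exp_add, Real.exp_le_exp]
        have : z 0 ^ 2 / (2 * ε) ≤ z 0 ^ 2 / z 1 :=
          div_le_div_of_nonneg_left (by positivity) ht0 hz.2
        have e : -(1 / (2 * ε)) * z 0 ^ 2 = -(z 0 ^ 2 / (2 * ε)) := by ring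
        linarith
      have e2 : Real.exp (-(1 / (2 * ε)) * z 0 ^ 2) ≤ 1 := by
        rw [Real.exp_le_one_iff]
        have : 0 ≤ (1 / (2 * ε)) * z 0 ^ 2 := by positivity
        linarith
      calc _ ≤ (B * Real.exp (-(1 / (2 * ε)) * z 0 ^ 2)) ^ p :=
            Real.rpow_le_rpow (norm_nonneg _)
              ((hK ε hε _ _ hz.1).trans (mul_le_mul_of_nonneg_left e1 hB0)) hp0.le
        _ = B ^ p * Real.exp (-(1 / (2 * ε)) * z 0 ^ 2) ^ p :=
            Real.mul_rpow hB0 (Real.exp_pos _).le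
        _ ≤ B ^ p * Real.exp (-(1 / (2 * ε)) * z 0 ^ 2) :=
            mul_le_mul_of_nonneg_left
              (Real.rpow_le_self_of_le_one (Real.exp_pos _).le e2 hp) (by positivity)
        _ = _ := mul_comm _ _
    · rw [indicator_of_notMem hz, mul_zero]
      have : zeta ε (z 1) = 0 := by
        rw [mem_Icc, not_and_or, not_le, not_le] at hz
        rcases hz with hz | hz
        · exact zeta_zero hε hz
        · exact zeta_zero' hε hz
      simp [ff, this, Real.zero_rpow hp0.ne']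
  rw [integral_prod' (fun x : ℝ => Real.exp (-(1 / (2 * ε)) * x ^ 2)), integral_gaussian,
    integral_indicator measurableSet_Icc, setIntegral_const, Real.volume_real_Icc_of_le (by linarith),
    smul_eq_mul] at h1
  have e3 : Real.sqrt (π / (1 / (2 * ε))) * ((2 * ε - ε) * B ^ p) =
      B ^ p * (Real.sqrt (2 * π) * ε ^ (3 / 2 : ℝ)) := by
    have : π / (1 / (2 * ε)) = 2 * π * ε := by field_simp
    rw [this, Real.sqrt_mul (by positivity), Real.sqrt_eq_rpow ε,
      show (3 / 2 : ℝ) = 1 / 2 + 1 by norm_num, Real.rpow_add hε, Real.rpow_one]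
    ring
  rw [e3] at h1
  refine (Real.rpow_le_rpow (integral_nonneg fun z => by positivity) h1 (by positivity)).trans
    (le_of_eq ?_)
  rw [Real.mul_rpow (by positivity) (by positivity), Real.rpow_rpow_inv hB0 hp0.ne',
    Real.mul_rpow (by positivity) (by positivity), ← Real.rpow_mul hε.le, hB]
  have e4 : 3 / (2 * p) - 29 / 20 = 3 / 2 * p⁻¹ + -(9 / 20) - 1 := by field_simp; ring
  rw [e4, Real.rpow_sub_one hε.ne', Real.rpow_add hε]
  ring

noncomputable def ww (z : Plane) : ℂ :=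
  ((Real.exp (-z 1) * z 1 ^ (-(9 / 20) : ℝ) : ℝ) : ℂ) * G pP (z 0 ^ 2 / z 1)

lemma ww_pos {p : ℝ} (hp : 1 ≤ p) :
    eLpNorm ({z : Plane | 1 < z 1}.indicator ww) (ENNReal.ofReal p) volume ≠ 0 := by
  have hU : IsOpen {z : Plane | 1 < z 1} := isOpen_lt continuous_const (by fun_prop)
  have hc : ContinuousOn ww {z : Plane | 1 < z 1} := by
    intro z hz
    have hz' : z 1 ≠ 0 := by
      have : 1 < z 1 := hz
      linarith
    apply ContinuousAt.continuousWithinAt
    have := continuous_G pP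
    unfold ww
    apply ContinuousAt.mul
    · apply Complex.continuous_ofReal.continuousAt.comp
      apply ContinuousAt.mul (by fun_prop)
      exact ContinuousAt.rpow_const (by fun_prop) (Or.inl hz')
    · apply this.continuousAt.comp
      fun_prop (disch := exact hz')
  intro h
  rw [eLpNorm_eq_zero_iff ((aestronglyMeasurable_indicator_iff hU.measurableSet).2
    (hc.aestronglyMeasurable hU.measurableSet)) (by simp; linarith)] at h
  have h1 : ww =ᵐ[volume.restrict {z : Plane | 1 < z 1}] 0 :=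
    (ae_eq_restrict_iff_indicator_ae_eq hU.measurableSet).2 (by simpa using h)
  have h2 := Measure.eqOn_open_of_ae_eq h1 hU hc continuousOn_const
    (x := EuclideanSpace.single (1 : Fin 2) (2 : ℝ)) (by simp)
  simp [ww, G, pP_zero] at h2

lemma ww_le {ε : ℝ} (hε : 0 < ε) (hε' : ε ≤ 1 / 2) (q : ℝ≥0∞) :
    eLpNorm ({z : Plane | 1 < z 1}.indicator ww) q volume ≤
      eLpNorm (fun z : Plane => uu ε (z 0) (z 1)) q volume := by
  apply eLpNorm_mono
  intro z
  by_cases hz : z ∈ {z : Plane | 1 < z 1}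
  · have : 1 < z 1 := hz
    rw [indicator_of_mem hz, uu, eta_big hε (by linarith), ww]
  · rw [indicator_of_notMem hz, norm_zero]
    exact norm_nonneg _

theorem not_lpBounded {p : ℝ} (hp : 1 ≤ p) (hp' : p < 30 / 29) : ¬ LpBounded aa p := by
  rintro ⟨C, hC⟩
  obtain ⟨K, hK⟩ := ff_small hp
  have hδ : 0 < 3 / (2 * p) - 29 / 20 := by
    rw [sub_pos, lt_div_iff₀ (by linarith)]; linarith
  have h1 : ∀ᶠ ε in 𝓝[>] (0 : ℝ),
      eLpNorm ({z : Plane | 1 < z 1}.indicator ww) (ENNReal.ofReal p) volume ≤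
        C * ENNReal.ofReal (K * ε ^ (3 / (2 * p) - 29 / 20)) := by
    filter_upwards [Ioc_mem_nhdsGT (show (0 : ℝ) < 1 / 2 by norm_num)] with ε hε
    obtain ⟨g, hg, hf⟩ := resolvent hε.1
    have h2 := hC 1 one_pos _ _ g
      ((memLp_congr_ae (l2 (memLp_ff hε.1)).coeFn_toLp).2 (memLp_ff hε.1 hp)) hg hf
    rw [eLpNorm_congr_ae (l2 (memLp_ff hε.1)).coeFn_toLp,
      eLpNorm_congr_ae (l2 (memLp_uu hε.1)).coeFn_toLp] at h2
    refine (ww_le hε.1 hε.2 _).trans (h2.trans ?_)
    gcongr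
    exact hK ε hε.1
  have h3 : Tendsto (fun ε : ℝ => (C : ℝ≥0∞) * ENNReal.ofReal (K * ε ^ (3 / (2 * p) - 29 / 20)))
      (𝓝[>] 0) (𝓝 0) := by
    have h4 : Tendsto (fun ε : ℝ => K * ε ^ (3 / (2 * p) - 29 / 20)) (𝓝 0) (𝓝 0) := by
      have := ((Real.continuous_rpow_const hδ.le).tendsto 0).const_mul K
      simpa [Real.zero_rpow hδ.ne'] using this
    have h5 := ENNReal.Tendsto.const_mul (a := (C : ℝ≥0∞))
      (ENNReal.tendsto_ofReal (h4.mono_left (nhdsWithin_le_nhds (s := Ioi 0))))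
      (Or.inr ENNReal.coe_ne_top)
    simpa using h5
  exact ww_pos hp (le_antisymm (ge_of_tendsto h3 h1) zero_le)

lemma aa_meas : Measurable aa := by
  have h1 : Measurable fun s : ℝ => pN.eval (s : ℂ) :=
    (pN.continuous.comp Complex.continuous_ofReal).measurable
  have h2 : Measurable fun s : ℝ => pM.eval (s : ℂ) :=
    (pM.continuous.comp Complex.continuous_ofReal).measurable
  have h3 : Measurable A := h1.div (h2.const_mul 2)
  unfold aa
  fun_prop

theorem main : ∃ (a : Plane → ℂ) (M ν : ℝ), Measurable a ∧ 0 < M ∧ 0 < ν ∧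
    (∀ z, ‖a z‖ ≤ M) ∧ (∀ z, ν ≤ (a z).re) ∧
    (∀ p : ℝ, 1 ≤ p → p < 30 / 29 → ¬ LpBounded a p) ∧ 30 / 29 ≤ pMinus a := by
  refine ⟨aa, 5, 1 / 2000, aa_meas, by norm_num, by norm_num, fun z => A_norm _, fun z => A_re _,
    fun p => not_lpBounded, ?_⟩
  apply le_csInf
  · exact ⟨2, by simp, lpBounded_two aa_meas (M := 5) (fun z => A_norm _)
      (fun z => le_trans (by norm_num) (A_re _))⟩
  · rintro p ⟨hp, hb⟩
    by_contra h
    exact not_lpBounded hp.1 (not_le.1 h) hb

end Pool.Agent.H962Z.Par
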