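import Mathlib

set_option linter.unusedSimpArgs false

namespace Pool.Agent.H962Z.Par

open Polynomial Complex

noncomputable def kk : ℂ := 2 + I
noncomputable def dE (R : ℂ[X]) : ℂ[X] := derivative R - C kk * R
noncomputable def pQ : ℂ[X] := C 6 + C (1 - 8 * I) * X + C (4 + 7 * I) * (X * X)
noncomputable def pP : ℂ[X] := pQ + C 2 * (X * dE pQ)
noncomputable def pM : ℂ[X] := dE pP
noncomputable def pN : ℂ[X] := C (-(9 / 20)) * pQ - X * dE pQ
noncomputable def pL : ℂ[X] := pN + C 2 * (X * dE pN)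

lemma pL_eval (w : ℂ) : pL.eval w = -(9 / 20) * pP.eval w - w * pM.eval w := by
  simp only [pL, pN, pM, pP, dE, derivative_add, derivative_sub, derivative_mul, derivative_C,
    derivative_X, eval_add, eval_sub, eval_mul, eval_C, eval_X, eval_zero, eval_one]
  ring

lemma pP_zero : pP.eval 0 = 6 := by
  simp [pP, pQ]

lemma pM_eval (s : ℝ) : pM.eval (s : ℂ) =
    ((-33 + 6 * s + 59 * s ^ 2 - 32 * s ^ 3 : ℝ) : ℂ) +
      ((-42 + 223 * s - 238 * s ^ 2 + 74 * s ^ 3 : ℝ) : ℂ) * I := by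
  simp only [pQ, pM, pP, dE, kk, derivative_add, derivative_sub, derivative_mul, derivative_C,
    derivative_X, eval_add, eval_sub, eval_mul, eval_C, eval_X, eval_zero, eval_one,
    derivative_zero, derivative_one]
  apply Complex.ext <;> simp [pow_succ] <;> ring

lemma pN_eval (s : ℝ) : pN.eval (s : ℂ) =
    (((-54 + 211 * s + 4 * s ^ 2 + 20 * s ^ 3) / 20 : ℝ) : ℂ) +
      (((352 * s - 643 * s ^ 2 + 360 * s ^ 3) / 20 : ℝ) : ℂ) * I := by
  simp only [pQ, pN, dE, kk, derivative_add, derivative_sub, derivative_mul, derivative_C,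
    derivative_X, eval_add, eval_sub, eval_mul, eval_C, eval_X, eval_zero, eval_one,
    derivative_zero, derivative_one]
  apply Complex.ext <;> simp [pow_succ] <;> ring

lemma sos1 (s : ℝ) : 0 ≤ 86246 - 1084422 * s + 5106637 * s ^ 2 - 11327656 * s ^ 3 +
    12555555 * s ^ 4 - 6571500 * s ^ 5 + 1293500 * s ^ 6 := by
  have : 86246 - 1084422 * s + 5106637 * s ^ 2 - 11327656 * s ^ 3 +
    12555555 * s ^ 4 - 6571500 * s ^ 5 + 1293500 * s ^ 6 = (1293500:ℝ) * (-323189/1293500 + 1033649/646750*s + -1011/398*s^2 + 1*s^3)^2 + (14824216/199:ℝ) * (6902107/29648432 + -8884011/7412108*s + 1*s^2 + 0*s^3)^2 + (114473556007529/6022337750:ℝ) * (-117989792937613/457894224030116 + 1*s + 0*s^2 + 0*s^3)^2 + (44856438403314691/228947112015058:ℝ) * (1 + 0*s + 0*s^2 + 0*s^3)^2 := by ring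
  rw [this]; positivity

lemma sos2 (s : ℝ) : 0 ≤ 353484 - 4391412 * s + 20522007 * s ^ 2 - 45295656 * s ^ 3 +
    49917855 * s ^ 4 - 25979200 * s ^ 5 + 5070000 * s ^ 6 := by
  have : 353484 - 4391412 * s + 20522007 * s ^ 2 - 45295656 * s ^ 3 +
    49917855 * s ^ 4 - 25979200 * s ^ 5 + 5070000 * s ^ 6 = (5070000:ℝ) * (-1312979/5070000 + 8275099/5070000*s + -2498/975*s^2 + 1*s^3)^2 + (262907/3:ℝ) * (28630358/85444775 + -130280473/85444775*s + 1*s^2 + 0*s^3)^2 + (11258463133182943/444312830000:ℝ) * (-3522884832950103/11258463133182943 + 1*s + 0*s^2 + 0*s^3)^2 + (12848705546226123258/11258463133182943:ℝ) * (1 + 0*s + 0*s^2 + 0*s^3)^2 := by ring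
  rw [this]; positivity

/-- The profile of the coefficient. -/
noncomputable def A (s : ℝ) : ℂ := pN.eval (s : ℂ) / (2 * pM.eval (s : ℂ))

lemma key1 (s : ℝ) : normSq (pM.eval (s : ℂ)) + 1 ≤
    1000 * (pN.eval (s : ℂ) * (starRingEnd ℂ) (pM.eval (s : ℂ))).re := by
  rw [pM_eval, pN_eval, normSq_add_mul_I]
  simp only [map_add, map_mul, conj_ofReal, conj_I, mul_re, add_re, ofReal_re, I_re, mul_zero,
    ofReal_im, I_im, mul_one, sub_self, add_zero, neg_re, neg_zero, neg_im, mul_neg, add_im,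
    mul_im, zero_add, sub_zero]
  nlinarith [sos1 s]

lemma key2 (s : ℝ) : normSq (pN.eval (s : ℂ)) ≤
    10 * (pN.eval (s : ℂ) * (starRingEnd ℂ) (pM.eval (s : ℂ))).re := by
  rw [pM_eval, pN_eval, normSq_add_mul_I]
  simp only [map_add, map_mul, conj_ofReal, conj_I, mul_re, add_re, ofReal_re, I_re, mul_zero,
    ofReal_im, I_im, mul_one, sub_self, add_zero, neg_re, neg_zero, neg_im, mul_neg, add_im,
    mul_im, zero_add, sub_zero]
  nlinarith [sos2 s]

lemma pM_ne (s : ℝ) : pM.eval (s : ℂ) ≠ 0 := by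
  intro h
  have := key1 s
  rw [h] at this
  simp at this
  linarith

lemma A_re (s : ℝ) : 1 / 2000 ≤ (A s).re := by
  have h := key1 s
  have h0 : 0 < normSq (pM.eval (s : ℂ)) := normSq_pos.2 (pM_ne s)
  have e : A s = pN.eval (s : ℂ) * (starRingEnd ℂ) (pM.eval (s : ℂ)) /
      ((2 * normSq (pM.eval (s : ℂ)) : ℝ) : ℂ) := by
    have hne := pM_ne s
    have hne' : (starRingEnd ℂ) (pM.eval (s : ℂ)) ≠ 0 := by simpa using hne
    rw [A]
    push_cast
    rw [← mul_conj]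
    field_simp
  rw [e, div_ofReal_re, le_div_iff₀ (by positivity)]
  linarith

lemma A_norm (s : ℝ) : ‖A s‖ ≤ 5 := by
  have h := key2 s
  have h0 : 0 < ‖pM.eval (s : ℂ)‖ := norm_pos_iff.2 (pM_ne s)
  have h1 := re_le_norm (pN.eval (s : ℂ) * (starRingEnd ℂ) (pM.eval (s : ℂ)))
  rw [norm_mul, RCLike.norm_conj] at h1
  rw [normSq_eq_norm_sq] at h
  rw [A, norm_div, norm_mul, Complex.norm_ofNat, div_le_iff₀ (by positivity)]
  rcases (norm_nonneg (pN.eval (s : ℂ))).eq_or_lt with h2 | h2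
  · rw [← h2]; positivity
  · nlinarith

/-- `R(r) e^{-k r}`. -/
noncomputable def G (R : ℂ[X]) (r : ℝ) : ℂ := R.eval (r : ℂ) * exp (-(kk * r))

lemma hasDerivAt_G (R : ℂ[X]) (r : ℝ) : HasDerivAt (G R) (G (dE R) r) r := by
  have h1 : HasDerivAt (fun w : ℂ => R.eval w * exp (-(kk * w)))
      (R.derivative.eval (r : ℂ) * exp (-(kk * r)) + R.eval (r : ℂ) * (exp (-(kk * r)) * (-kk)))
      (r : ℂ) := by
    apply (R.hasDerivAt _).mul
    apply HasDerivAt.cexp
    have := ((hasDerivAt_id' (r : ℂ)).const_mul kk).fun_neg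
    rwa [mul_one] at this
  have h2 : G (dE R) r = R.derivative.eval (r : ℂ) * exp (-(kk * r)) +
      R.eval (r : ℂ) * (exp (-(kk * r)) * (-kk)) := by
    simp only [G, dE, eval_sub, eval_mul, eval_C]
    ring
  rw [h2]
  exact h1.comp_ofReal

lemma continuous_G (R : ℂ[X]) : Continuous (G R) :=
  continuous_iff_continuousAt.2 fun r => (hasDerivAt_G R r).continuousAt

lemma eval_bound (R : ℂ[X]) : ∃ K : ℝ, 0 ≤ K ∧ ∀ s : ℝ, 0 ≤ s → ‖R.eval (s : ℂ)‖ ≤ K * Real.exp s := by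
  induction R using Polynomial.induction_on' with
  | add p q hp hq =>
    obtain ⟨K1, h1, H1⟩ := hp
    obtain ⟨K2, h2, H2⟩ := hq
    refine ⟨K1 + K2, by positivity, fun s hs => ?_⟩
    rw [eval_add, add_mul]
    exact (norm_add_le _ _).trans (add_le_add (H1 s hs) (H2 s hs))
  | monomial n c =>
    refine ⟨‖c‖ * n.factorial, by positivity, fun s hs => ?_⟩
    rw [eval_monomial, norm_mul, norm_pow, Complex.norm_real, Real.norm_of_nonneg hs, mul_assoc]
    apply mul_le_mul_of_nonneg_left _ (norm_nonneg _)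
    have := Real.pow_div_factorial_le_exp s hs n
    rw [div_le_iff₀ (by positivity)] at this
    linarith

lemma G_bound (R : ℂ[X]) : ∃ K : ℝ, 0 ≤ K ∧ ∀ s : ℝ, 0 ≤ s → ‖G R s‖ ≤ K * Real.exp (-s) := by
  obtain ⟨K, h0, H⟩ := eval_bound R
  refine ⟨K, h0, fun s hs => ?_⟩
  have e : ‖exp (-(kk * s))‖ = Real.exp (-(2 * s)) := by
    rw [Complex.norm_exp]; simp [kk]
  rw [G, norm_mul, e]
  calc _ ≤ K * Real.exp s * Real.exp (-(2 * s)) :=
        mul_le_mul_of_nonneg_right (H s hs) (Real.exp_pos _).le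
    _ = K * Real.exp (-s) := by rw [mul_assoc, ← Real.exp_add]; congr 2; ring

lemma G_bound' (R : ℂ[X]) :
    ∃ K : ℝ, 0 ≤ K ∧ ∀ s : ℝ, 0 ≤ s → (1 + s) * ‖G R s‖ ≤ K * Real.exp (-s) := by
  obtain ⟨K, h0, H⟩ := G_bound ((1 + X) * R)
  refine ⟨K, h0, fun s hs => ?_⟩
  refine le_trans (le_of_eq ?_) (H s hs)
  have : G ((1 + X) * R) s = ((1 + s : ℝ) : ℂ) * G R s := by
    simp [G, mul_assoc]
  rw [this, norm_mul, Complex.norm_real, Real.norm_of_nonneg (by positivity)]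

end Pool.Agent.H962Z.Par
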