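import Pool.Agent.H962Z.Par.Four
import Pool.Agent.H962Z.Par.Poly

set_option linter.unusedSimpArgs false

namespace Pool.Agent.H962Z.Par

open MeasureTheory Filter Topology Set
open scoped ENNReal

noncomputable def chi : ℝ → ℝ := Real.smoothTransition

lemma chi_contDiff : ContDiff ℝ 1 chi := Real.smoothTransition.contDiff

lemma chi_hasDerivAt (r : ℝ) : HasDerivAt chi (deriv chi r) r :=
  (chi_contDiff.differentiable one_ne_zero r).hasDerivAt

lemma dchi_neg {r : ℝ} (h : r < 0) : deriv chi r = 0 := by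
  have : chi =ᶠ[𝓝 r] fun _ => 0 := by
    filter_upwards [Iio_mem_nhds h] with x hx
    exact Real.smoothTransition.zero_of_nonpos (le_of_lt hx)
  rw [this.deriv_eq, deriv_const]

lemma dchi_big {r : ℝ} (h : 1 < r) : deriv chi r = 0 := by
  have : chi =ᶠ[𝓝 r] fun _ => 1 := by
    filter_upwards [Ioi_mem_nhds h] with x hx
    exact Real.smoothTransition.one_of_one_le (le_of_lt hx)
  rw [this.deriv_eq, deriv_const]

lemma dchi_cont : Continuous (deriv chi) := chi_contDiff.continuous_deriv le_rfl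

lemma dchi_bound : ∃ K : ℝ, 0 ≤ K ∧ ∀ r, |deriv chi r| ≤ K := by
  obtain ⟨K, hK⟩ := (isCompact_Icc (a := (0 : ℝ)) (b := 1)).exists_bound_of_continuousOn
    dchi_cont.continuousOn
  have h0 : 0 ≤ K := (norm_nonneg _).trans (hK 0 (by simp))
  refine ⟨K, h0, fun r => ?_⟩
  by_cases h1 : r < 0
  · simp [dchi_neg h1, h0]
  by_cases h2 : 1 < r
  · simp [dchi_big h2, h0]
  exact hK r ⟨not_lt.1 h1, not_lt.1 h2⟩

noncomputable def eta (ε t : ℝ) : ℝ := Real.exp (-t) * chi (t / ε - 1) * t ^ (-(9 / 20) : ℝ)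
noncomputable def zeta (ε t : ℝ) : ℝ :=
  Real.exp (-t) * (deriv chi (t / ε - 1) / ε) * t ^ (-(9 / 20) : ℝ)

lemma eta_zero {ε t : ℝ} (hε : 0 < ε) (h : t < ε) : eta ε t = 0 := by
  have : chi (t / ε - 1) = 0 := by
    apply Real.smoothTransition.zero_of_nonpos
    rw [sub_nonpos, div_le_one hε]; exact h.le
  simp [eta, this]

lemma zeta_zero {ε t : ℝ} (hε : 0 < ε) (h : t < ε) : zeta ε t = 0 := by
  have : deriv chi (t / ε - 1) = 0 := by
    apply dchi_neg
    rw [sub_neg, div_lt_one hε]; exact h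
  simp [zeta, this]

lemma zeta_zero' {ε t : ℝ} (hε : 0 < ε) (h : 2 * ε < t) : zeta ε t = 0 := by
  have : deriv chi (t / ε - 1) = 0 := by
    apply dchi_big
    rw [lt_sub_iff_add_lt, lt_div_iff₀ hε]; linarith
  simp [zeta, this]

lemma eta_big {ε t : ℝ} (hε : 0 < ε) (h : 2 * ε ≤ t) :
    eta ε t = Real.exp (-t) * t ^ (-(9 / 20) : ℝ) := by
  have : chi (t / ε - 1) = 1 := by
    apply Real.smoothTransition.one_of_one_le
    rw [le_sub_iff_add_le, le_div_iff₀ hε]; linarith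
  simp [eta, this]

lemma rpow_le {ε t : ℝ} (hε : 0 < ε) (h : ε ≤ t) :
    t ^ (-(9 / 20) : ℝ) ≤ ε ^ (-(9 / 20) : ℝ) :=
  Real.rpow_le_rpow_of_nonpos hε h (by norm_num)

lemma eta_bound {ε t : ℝ} (hε : 0 < ε) (h : ε ≤ t) :
    |eta ε t| ≤ ε ^ (-(9 / 20) : ℝ) * Real.exp (-t) := by
  have ht : 0 < t := hε.trans_le h
  have h0 : 0 ≤ chi (t / ε - 1) := Real.smoothTransition.nonneg _
  have h1 : chi (t / ε - 1) ≤ 1 := Real.smoothTransition.le_one _
  rw [eta, abs_of_nonneg (by positivity), mul_comm]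
  apply mul_le_mul (rpow_le hε h) _ (by positivity) (by positivity)
  exact mul_le_of_le_one_right (Real.exp_pos _).le h1

lemma zeta_bound {K : ℝ} (hK : ∀ r, |deriv chi r| ≤ K) {ε t : ℝ} (hε : 0 < ε) (h : ε ≤ t) :
    |zeta ε t| ≤ K / ε * ε ^ (-(9 / 20) : ℝ) * Real.exp (-t) := by
  have ht : 0 < t := hε.trans_le h
  have h0 : 0 ≤ K := (abs_nonneg _).trans (hK 0)
  rw [zeta, abs_mul, abs_mul, abs_div, abs_of_pos hε, abs_of_pos (Real.exp_pos _),
    abs_of_pos (Real.rpow_pos_of_pos ht _), mul_assoc, mul_comm]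
  apply mul_le_mul_of_nonneg_right _ (Real.exp_pos _).le
  apply mul_le_mul _ (rpow_le hε h) (by positivity) (by positivity)
  exact div_le_div_of_nonneg_right (hK _) hε.le

lemma eta_hasDerivAt {ε t : ℝ} (ht : 0 < t) :
    HasDerivAt (eta ε) (-eta ε t + zeta ε t - 9 / 20 * eta ε t / t) t := by
  have h1 : HasDerivAt (fun t : ℝ => Real.exp (-t)) (Real.exp (-t) * (-1)) t :=
    (hasDerivAt_neg' t).exp
  have h2 : HasDerivAt (fun t : ℝ => chi (t / ε - 1)) (deriv chi (t / ε - 1) * (1 / ε)) t :=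
    (chi_hasDerivAt _).comp t (((hasDerivAt_id' t).div_const ε).sub_const 1)
  have h3 : HasDerivAt (fun t : ℝ => t ^ (-(9 / 20) : ℝ))
      ((-(9 / 20) : ℝ) * t ^ ((-(9 / 20) : ℝ) - 1)) t :=
    Real.hasDerivAt_rpow_const (Or.inl ht.ne')
  have h4 := (h1.fun_mul h2).fun_mul h3
  rw [Real.rpow_sub_one ht.ne'] at h4
  refine h4.congr_deriv ?_
  simp only [eta, zeta]
  ring

lemma eta_meas (ε : ℝ) : Measurable (eta ε) := by
  have := chi_contDiff.continuous.measurable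
  unfold eta
  fun_prop

lemma zeta_meas (ε : ℝ) : Measurable (zeta ε) := by
  have := dchi_cont.measurable
  unfold zeta
  fun_prop

noncomputable def aa (z : Plane) : ℂ := A (z 0 ^ 2 / z 1)
noncomputable def uu (ε x t : ℝ) : ℂ := eta ε t * G pP (x ^ 2 / t)
noncomputable def ux (ε x t : ℝ) : ℂ := eta ε t * (2 * x / t : ℝ) * G pM (x ^ 2 / t)
noncomputable def ph (ε x t : ℝ) : ℂ := eta ε t * (x / t : ℝ) * G pN (x ^ 2 / t)
noncomputable def phx (ε x t : ℝ) : ℂ := (eta ε t / t : ℝ) * G pL (x ^ 2 / t)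
noncomputable def ff (ε x t : ℝ) : ℂ := zeta ε t * G pP (x ^ 2 / t)

lemma hasDerivAt_Gx (R : Polynomial ℂ) (x t : ℝ) :
    HasDerivAt (fun x : ℝ => G R (x ^ 2 / t)) ((2 * x / t : ℝ) * G (dE R) (x ^ 2 / t)) x := by
  have h1 : HasDerivAt (fun x : ℝ => x ^ 2 / t) (2 * x / t) x := by
    simpa using (hasDerivAt_pow 2 x).div_const t
  have := (hasDerivAt_G R (x ^ 2 / t)).scomp x h1
  rwa [Complex.real_smul] at this

lemma hasDerivAt_Gt (R : Polynomial ℂ) (x : ℝ) {t : ℝ} (ht : t ≠ 0) :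
    HasDerivAt (fun t : ℝ => G R (x ^ 2 / t)) ((-(x ^ 2 / t) / t : ℝ) * G (dE R) (x ^ 2 / t)) t := by
  have h1 : HasDerivAt (fun t : ℝ => x ^ 2 / t) (-(x ^ 2 / t) / t) t := by
    have := (hasDerivAt_inv ht).const_mul (x ^ 2)
    refine HasDerivAt.congr_deriv this ?_
    field_simp
  have := (hasDerivAt_G R (x ^ 2 / t)).scomp t h1
  rwa [Complex.real_smul] at this

lemma uu_x (ε x t : ℝ) : HasDerivAt (fun x => uu ε x t) (ux ε x t) x := by
  refine ((hasDerivAt_Gx pP x t).const_mul (eta ε t : ℂ)).congr_deriv ?_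
  simp only [ux, pM]; ring

lemma ph_x (ε x t : ℝ) : HasDerivAt (fun x => ph ε x t) (phx ε x t) x := by
  have h1 : HasDerivAt (fun x : ℝ => (eta ε t : ℂ) * ((x / t : ℝ) : ℂ)) (eta ε t * (1 / t : ℝ)) x :=
    (((hasDerivAt_id' x).div_const t).ofReal_comp).const_mul _
  refine (h1.fun_mul (hasDerivAt_Gx pN x t)).congr_deriv ?_
  simp only [phx, G, pL, Polynomial.eval_add, Polynomial.eval_mul, Polynomial.eval_C,
    Polynomial.eval_X]
  push_cast
  ring

lemma uu_t {ε : ℝ} (hε : 0 < ε) (x t : ℝ) :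
    HasDerivAt (fun t => uu ε x t) (-uu ε x t + ff ε x t + phx ε x t) t := by
  by_cases ht : t < ε
  · have : (fun t => uu ε x t) =ᶠ[𝓝 t] fun _ => 0 := by
      filter_upwards [Iio_mem_nhds ht] with r hr
      simp [uu, eta_zero hε hr]
    refine ((hasDerivAt_const t (0 : ℂ)).congr_of_eventuallyEq this).congr_deriv ?_
    simp [uu, ff, phx, eta_zero hε ht, zeta_zero hε ht]
  · have ht0 : 0 < t := hε.trans_le (not_lt.1 ht)
    refine ((eta_hasDerivAt (ε := ε) ht0).ofReal_comp.fun_mul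
      (hasDerivAt_Gt pP x ht0.ne')).congr_deriv ?_
    simp only [uu, ff, phx, G, pL_eval]
    rw [show dE pP = pM from rfl]
    push_cast
    ring

lemma aa_ux (ε : ℝ) (z : Plane) : aa z * ux ε (z 0) (z 1) = ph ε (z 0) (z 1) := by
  have := pM_ne (z 0 ^ 2 / z 1)
  simp only [aa, ux, ph, A, G]
  generalize Polynomial.eval (((z 0 ^ 2 / z 1 : ℝ)) : ℂ) pM = m at *
  push_cast
  field_simp

lemma lineX {F : ℝ → ℝ → ℂ} {d : ℂ} {z : Plane} (h : HasDerivAt (fun x => F x (z 1)) d (z 0)) :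
    HasLineDerivAt ℝ (fun z : Plane => F (z 0) (z 1)) d z eX := by
  unfold HasLineDerivAt
  have h' : HasDerivAt (fun x => F x (z 1)) d (z 0 + 0) := by rwa [add_zero]
  have := h'.comp_const_add (z 0) 0
  simpa [eX] using this

lemma lineT {F : ℝ → ℝ → ℂ} {d : ℂ} {z : Plane} (h : HasDerivAt (fun t => F (z 0) t) d (z 1)) :
    HasLineDerivAt ℝ (fun z : Plane => F (z 0) (z 1)) d z eT := by
  unfold HasLineDerivAt
  have h' : HasDerivAt (fun t => F (z 0) t) d (z 1 + 0) := by rwa [add_zero]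
  have := h'.comp_const_add (z 1) 0
  simpa [eT] using this

lemma integrable_exp_norm : Integrable (fun z : Plane => Real.exp (-(‖z‖ / 2))) volume := by
  have h := (integrable_one_add_norm (E := Plane) (μ := volume) (r := 3)
    (by simp; norm_num)).const_mul (48 * Real.exp (1 / 2))
  refine h.mono' (by fun_prop) (Eventually.of_forall fun z => ?_)
  rw [Real.norm_of_nonneg (Real.exp_pos _).le, Real.rpow_neg (by positivity)]
  have h1 := Real.pow_div_factorial_le_exp ((1 + ‖z‖) / 2) (by positivity) 3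
  have h2 : Real.exp (-(‖z‖ / 2)) = Real.exp (1 / 2) / Real.exp ((1 + ‖z‖) / 2) := by
    rw [← Real.exp_sub]; congr 1; ring
  have h3 : (1 + ‖z‖) ^ (3 : ℝ) = (1 + ‖z‖) ^ 3 := by norm_cast
  rw [h2, h3, ← div_eq_mul_inv, div_le_div_iff₀ (Real.exp_pos _) (by positivity)]
  have h4 : (1 + ‖z‖) ^ 3 ≤ 48 * Real.exp ((1 + ‖z‖) / 2) := by
    simp only [Nat.factorial] at h1
    norm_num at h1
    nlinarith
  nlinarith [Real.exp_pos (1 / 2)]

lemma memLp_exp_norm {p : ℝ} (hp : 1 ≤ p) :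
    MemLp (fun z : Plane => Real.exp (-(‖z‖ / 2))) (ENNReal.ofReal p) volume := by
  rw [← integrable_norm_rpow_iff (by fun_prop) (by simp; linarith) (by simp)]
  refine integrable_exp_norm.mono' (Measurable.aestronglyMeasurable (by fun_prop))
    (Eventually.of_forall fun z => ?_)
  rw [ENNReal.toReal_ofReal (by linarith), Real.norm_of_nonneg (by positivity),
    Real.norm_of_nonneg (Real.exp_pos _).le]
  apply Real.rpow_le_self_of_le_one (Real.exp_pos _).le _ hp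
  rw [Real.exp_le_one_iff]
  have := norm_nonneg z
  linarith

lemma memLp_of_bound {F : ℝ → ℝ → ℂ} (hm : Measurable fun z : Plane => F (z 0) (z 1)) {ε K : ℝ}
    (hε : 0 < ε) (hK : 0 ≤ K) (h0 : ∀ x t, t < ε → F x t = 0)
    (h1 : ∀ x t, ε ≤ t → ‖F x t‖ ≤ K * (Real.exp (-t) * Real.exp (-(x ^ 2 / t))))
    {p : ℝ} (hp : 1 ≤ p) : MemLp (fun z : Plane => F (z 0) (z 1)) (ENNReal.ofReal p) volume := by
  refine ((memLp_exp_norm hp).const_mul K).of_le hm.aestronglyMeasurable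
    (Eventually.of_forall fun z => ?_)
  rw [Real.norm_of_nonneg (by positivity)]
  by_cases ht : z 1 < ε
  · rw [h0 _ _ ht, norm_zero]; positivity
  have ht' := not_lt.1 ht
  have ht0 : 0 < z 1 := hε.trans_le ht'
  refine (h1 _ _ ht').trans (mul_le_mul_of_nonneg_left ?_ hK)
  rw [← Real.exp_add, Real.exp_le_exp]
  have hn : ‖z‖ ≤ |z 0| + z 1 := by
    rw [EuclideanSpace.norm_eq, Real.sqrt_le_left (by positivity)]
    simp only [Fin.sum_univ_two, Real.norm_eq_abs, sq_abs]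
    nlinarith [abs_nonneg (z 0), sq_abs (z 0)]
  have h2 : |z 0| / 2 - z 1 / 2 ≤ z 0 ^ 2 / z 1 := by
    rw [le_div_iff₀ ht0]
    nlinarith [sq_abs (z 0), sq_nonneg (|z 0| - z 1 / 4), sq_nonneg (z 1)]
  linarith

lemma abs_div_le {ε x t : ℝ} (hε : 0 < ε) (h : ε ≤ t) :
    |x / t| ≤ (1 + 1 / ε) * (1 + x ^ 2 / t) := by
  have ht : 0 < t := hε.trans_le h
  have h1 : |x / t| ≤ x ^ 2 / t + 1 / t := by
    rw [abs_div, abs_of_pos ht, ← add_div]
    apply div_le_div_of_nonneg_right _ ht.le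
    nlinarith [sq_abs x, sq_nonneg (|x| - 1), abs_nonneg x]
  have h2 : 1 / t ≤ 1 / ε := one_div_le_one_div_of_le hε h
  have h3 : 0 ≤ x ^ 2 / t := by positivity
  have h4 : 0 ≤ 1 / ε := by positivity
  nlinarith [mul_nonneg h3 h4]

lemma memLp_uu {ε : ℝ} (hε : 0 < ε) {p : ℝ} (hp : 1 ≤ p) :
    MemLp (fun z : Plane => uu ε (z 0) (z 1)) (ENNReal.ofReal p) volume := by
  obtain ⟨K, h0, hK⟩ := G_bound pP
  have := eta_meas ε
  have := (continuous_G pP).measurable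
  refine memLp_of_bound (K := ε ^ (-(9 / 20) : ℝ) * K) (by unfold uu; fun_prop) hε (by positivity)
    (fun x t ht => by simp [uu, eta_zero hε ht]) (fun x t ht => ?_) hp
  have ht0 : 0 < t := hε.trans_le ht
  rw [uu, norm_mul, Complex.norm_real, Real.norm_eq_abs]
  calc _ ≤ (ε ^ (-(9 / 20) : ℝ) * Real.exp (-t)) * (K * Real.exp (-(x ^ 2 / t))) :=
        mul_le_mul (eta_bound hε ht) (hK _ (by positivity)) (norm_nonneg _) (by positivity)
    _ = _ := by ring

lemma meas_ff (ε : ℝ) : Measurable (fun z : Plane => ff ε (z 0) (z 1)) := by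
  have := zeta_meas ε
  have := (continuous_G pP).measurable
  unfold ff; fun_prop

lemma ff_bound : ∃ K : ℝ, 0 ≤ K ∧ ∀ ε : ℝ, 0 < ε → ∀ x t, ε ≤ t →
    ‖ff ε x t‖ ≤ K / ε * ε ^ (-(9 / 20) : ℝ) * (Real.exp (-t) * Real.exp (-(x ^ 2 / t))) := by
  obtain ⟨K, h0, hK⟩ := G_bound pP
  obtain ⟨K', h0', hK'⟩ := dchi_bound
  refine ⟨K' * K, by positivity, fun ε hε x t ht => ?_⟩
  have ht0 : 0 < t := hε.trans_le ht
  rw [ff, norm_mul, Complex.norm_real, Real.norm_eq_abs]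
  calc _ ≤ (K' / ε * ε ^ (-(9 / 20) : ℝ) * Real.exp (-t)) * (K * Real.exp (-(x ^ 2 / t))) :=
        mul_le_mul (zeta_bound hK' hε ht) (hK _ (by positivity)) (norm_nonneg _) (by positivity)
    _ = _ := by ring

lemma memLp_ff {ε : ℝ} (hε : 0 < ε) {p : ℝ} (hp : 1 ≤ p) :
    MemLp (fun z : Plane => ff ε (z 0) (z 1)) (ENNReal.ofReal p) volume := by
  obtain ⟨K, h0, hK⟩ := ff_bound
  exact memLp_of_bound (meas_ff ε) hε (by positivity)
    (fun x t ht => by simp [ff, zeta_zero hε ht]) (hK ε hε) hp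

lemma memLp_phx {ε : ℝ} (hε : 0 < ε) {p : ℝ} (hp : 1 ≤ p) :
    MemLp (fun z : Plane => phx ε (z 0) (z 1)) (ENNReal.ofReal p) volume := by
  obtain ⟨K, h0, hK⟩ := G_bound pL
  have := eta_meas ε
  have := (continuous_G pL).measurable
  refine memLp_of_bound (K := ε ^ (-(9 / 20) : ℝ) / ε * K) (by unfold phx; fun_prop) hε
    (by positivity) (fun x t ht => by simp [phx, eta_zero hε ht]) (fun x t ht => ?_) hp
  have ht0 : 0 < t := hε.trans_le ht
  rw [phx, norm_mul, Complex.norm_real, Real.norm_eq_abs, abs_div, abs_of_pos ht0]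
  calc _ ≤ (ε ^ (-(9 / 20) : ℝ) * Real.exp (-t) / ε) * (K * Real.exp (-(x ^ 2 / t))) :=
        mul_le_mul (div_le_div₀ (by positivity) (eta_bound hε ht) hε ht) (hK _ (by positivity))
          (norm_nonneg _) (by positivity)
    _ = _ := by ring

lemma memLp_aux (R : Polynomial ℂ) {ε : ℝ} (hε : 0 < ε) {p : ℝ} (hp : 1 ≤ p) :
    MemLp (fun z : Plane => (eta ε (z 1) : ℂ) * (z 0 / z 1 : ℝ) * G R (z 0 ^ 2 / z 1))
      (ENNReal.ofReal p) volume := by
  obtain ⟨K, h0, hK⟩ := G_bound' R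
  have := eta_meas ε
  have := (continuous_G R).measurable
  refine memLp_of_bound (F := fun x t => (eta ε t : ℂ) * (x / t : ℝ) * G R (x ^ 2 / t))
    (K := ε ^ (-(9 / 20) : ℝ) * (1 + 1 / ε) * K) (by fun_prop) hε
    (by positivity) (fun x t ht => by simp [eta_zero hε ht]) (fun x t ht => ?_) hp
  have ht0 : 0 < t := hε.trans_le ht
  rw [norm_mul, norm_mul, Complex.norm_real, Complex.norm_real, Real.norm_eq_abs, Real.norm_eq_abs]
  calc _ ≤ (ε ^ (-(9 / 20) : ℝ) * Real.exp (-t)) * ((1 + 1 / ε) * (1 + x ^ 2 / t)) *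
          ‖G R (x ^ 2 / t)‖ :=
        mul_le_mul_of_nonneg_right
          (mul_le_mul (eta_bound hε ht) (abs_div_le hε ht) (abs_nonneg _) (by positivity))
          (norm_nonneg _)
    _ = (ε ^ (-(9 / 20) : ℝ) * Real.exp (-t) * (1 + 1 / ε)) *
          ((1 + x ^ 2 / t) * ‖G R (x ^ 2 / t)‖) := by ring
    _ ≤ (ε ^ (-(9 / 20) : ℝ) * Real.exp (-t) * (1 + 1 / ε)) * (K * Real.exp (-(x ^ 2 / t))) :=
        mul_le_mul_of_nonneg_left (hK _ (by positivity)) (by positivity)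
    _ = _ := by ring

lemma memLp_ph {ε : ℝ} (hε : 0 < ε) {p : ℝ} (hp : 1 ≤ p) :
    MemLp (fun z : Plane => ph ε (z 0) (z 1)) (ENNReal.ofReal p) volume :=
  memLp_aux pN hε hp

lemma memLp_ux {ε : ℝ} (hε : 0 < ε) {p : ℝ} (hp : 1 ≤ p) :
    MemLp (fun z : Plane => ux ε (z 0) (z 1)) (ENNReal.ofReal p) volume := by
  have := (memLp_aux pM hε hp).const_mul 2
  convert this using 2 with z
  simp only [ux]
  push_cast
  ring

lemma two_eq : ENNReal.ofReal 2 = 2 := by simp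

lemma l2 {f : Plane → ℂ} (h : ∀ {p : ℝ}, 1 ≤ p → MemLp f (ENNReal.ofReal p) volume) :
    MemLp f 2 volume := by
  have := h one_le_two
  rwa [two_eq] at this

/-- The resolvent equation. -/
lemma resolvent {ε : ℝ} (hε : 0 < ε) : ∃ g : L2,
    Graph aa ((l2 (memLp_uu hε)).toLp _) g ∧
      ∀ᵐ z ∂vol, fn ((l2 (memLp_uu hε)).toLp _) z + (((1 : ℝ) : ℂ) ^ 2) * fn g z =
        fn ((l2 (memLp_ff hε)).toLp _) z := by
  have hut : MemLp (fun z : Plane => -uu ε (z 0) (z 1) + ff ε (z 0) (z 1) + phx ε (z 0) (z 1)) 2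
      volume := ((l2 (memLp_uu hε)).neg.add (l2 (memLp_ff hε))).add (l2 (memLp_phx hε))
  refine ⟨hut.toLp _ - (l2 (memLp_phx hε)).toLp _, ?_, ?_⟩
  · refine graph_of_derivs (ux := (l2 (memLp_ux hε)).toLp _) (φ := (l2 (memLp_ph hε)).toLp _)
      (isD_of_hasLineDerivAt _ _ _ fun z => lineT (uu_t hε _ _))
      (isD_of_hasLineDerivAt _ _ _ fun z => lineX (uu_x ε _ _))
      (isD_of_hasLineDerivAt _ _ _ fun z => lineX (ph_x ε _ _)) ?_
    filter_upwards [(l2 (memLp_ux hε)).coeFn_toLp, (l2 (memLp_ph hε)).coeFn_toLp] with z h1 h2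
    rw [h1, h2, aa_ux]
  · filter_upwards [(l2 (memLp_uu hε)).coeFn_toLp, (l2 (memLp_ff hε)).coeFn_toLp,
      hut.coeFn_toLp, (l2 (memLp_phx hε)).coeFn_toLp,
      Lp.coeFn_sub (hut.toLp _) ((l2 (memLp_phx hε)).toLp _)] with z h1 h2 h3 h4 h5
    simp only [fn]
    rw [h5, Pi.sub_apply, h1, h2, h3, h4]
    simp

end Pool.Agent.H962Z.Par
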